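import Pool.Agent.W670.ML.Defs

set_option autoImplicit false

namespace Pool.Agent.W370.ML.TR

open Pool.Agent.W670.ML

/-- transport of embeddings -/
noncomputable def emb {K Ω Ω' : Type} [Field K] [Field Ω] [Field Ω'] [Algebra K Ω] [Algebra K Ω']
    (ι : Ω ≃ₐ[K] Ω') (L : IntermediateField K Ω) :
    (↥(L.map ι.toAlgHom) →ₐ[K] Ω') ≃ (↥L →ₐ[K] Ω) where
  toFun ψ := (ι.symm.toAlgHom.comp ψ).comp (IntermediateField.intermediateFieldMap ι L).toAlgHom
  invFun φ := (ι.toAlgHom.comp φ).comp (IntermediateField.intermediateFieldMap ι L).symm.toAlgHom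
  left_inv ψ := by
    apply AlgHom.ext
    intro x
    simp
  right_inv φ := by
    apply AlgHom.ext
    intro x
    simp

theorem tr : S_TR := by
  intro K Ω Ω' _ _ _ _ _ ι n G L ⟨hfin, e, he⟩
  refine ⟨?_, (emb ι L).trans e, ?_⟩
  · rw [← hfin]
    exact ((IntermediateField.intermediateFieldMap ι L).toLinearEquiv.finrank_eq).symm
  · intro τ
    rw [he]
    constructor
    · rintro ⟨σ, hσ⟩
      refine ⟨(ι.symm.trans σ).trans ι, ?_⟩
      intro ψ
      have h := hσ (emb ι L ψ)
      show τ (e (emb ι L ψ)) = e (emb ι L (((ι.symm.trans σ).trans ι).toAlgHom.comp ψ))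
      rw [h]
      congr 1
      apply AlgHom.ext
      intro x
      simp [emb]
    · rintro ⟨σ, hσ⟩
      refine ⟨(ι.trans σ).trans ι.symm, ?_⟩
      intro φ
      obtain ⟨ψ, rfl⟩ := (emb ι L).surjective φ
      have h : τ (e (emb ι L ψ)) = e (emb ι L (σ.toAlgHom.comp ψ)) := hσ ψ
      rw [h]
      congr 1
      apply AlgHom.ext
      intro x
      simp [emb]

end Pool.Agent.W370.ML.TR
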